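import Mathlib

/-!
MP_b57ad3_co, Q1.  The twist graph `H_N` of colorful triangulations of the `N`-gon is connected for
`N = 14`, although `14 ≡ 2 (mod 3)`.
-/

set_option autoImplicit false

namespace Pool.Agent.Results.MP_b57ad3_co.TwistConnected

/-! ### Definitions -/

/-- the chords `{p.1, p.2}` and `{q.1, q.2}` (`p.1 < p.2`, `q.1 < q.2`) of a convex polygon cross -/
def Cross (p q : ℕ × ℕ) : Prop :=
  (p.1 < q.1 ∧ q.1 < p.2 ∧ p.2 < q.2) ∨ (q.1 < p.1 ∧ p.1 < q.2 ∧ q.2 < p.2)

instance (p q : ℕ × ℕ) : Decidable (Cross p q) := by unfold Cross; infer_instance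

/-- `p = (a, b)`, `a < b`, is a diagonal of the convex `N`-gon with vertices `1, …, N` -/
def IsDiag (N : ℕ) (p : ℕ × ℕ) : Prop := 1 ≤ p.1 ∧ p.1 + 2 ≤ p.2 ∧ p.2 ≤ N ∧ p ≠ (1, N)

instance (N : ℕ) (p : ℕ × ℕ) : Decidable (IsDiag N p) := by unfold IsDiag; infer_instance

/-- a triangulation of the `N`-gon, given by its diagonals: a maximal set of pairwise noncrossing
diagonals -/
def IsTriangulation (N : ℕ) (T : Finset (ℕ × ℕ)) : Prop :=
  (∀ p ∈ T, IsDiag N p) ∧ (∀ p ∈ T, ∀ q ∈ T, ¬ Cross p q) ∧
    ∀ p, IsDiag N p → p ∉ T → ∃ q ∈ T, Cross p q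

/-- the vertices `a < b` are joined by a side of the polygon or by a diagonal of `T` -/
def Edge (N : ℕ) (T : Finset (ℕ × ℕ)) (a b : ℕ) : Prop :=
  1 ≤ a ∧ a < b ∧ b ≤ N ∧ (b = a + 1 ∨ (a = 1 ∧ b = N) ∨ (a, b) ∈ T)

instance (N : ℕ) (T : Finset (ℕ × ℕ)) (a b : ℕ) : Decidable (Edge N T a b) := by
  unfold Edge; infer_instance

/-- `a < b < c` are the vertices of a triangle of `T` -/
def Triangle (N : ℕ) (T : Finset (ℕ × ℕ)) (a b c : ℕ) : Prop :=
  Edge N T a b ∧ Edge N T b c ∧ Edge N T a c

/-- Colorful triangulations: vertex `i` has colour `i mod 3`, and every triangle has vertices of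
three different colours. -/
def Colorful (N : ℕ) (T : Finset (ℕ × ℕ)) : Prop :=
  IsTriangulation N T ∧ ∀ a b c, Triangle N T a b c → a % 3 ≠ b % 3 ∧ b % 3 ≠ c % 3 ∧ a % 3 ≠ c % 3

/-- `T'` is obtained from `T` by a twist: there is a hexagon `a < b < c < d < e < f` whose sides are
edges of `T`, cut into four triangles by the diagonals `ac, ce, ae` of `T` (resp. `bd, df, bf`),
and these are replaced by `bd, df, bf` (resp. `ac, ce, ae`). -/
def Twist (N : ℕ) (T T' : Finset (ℕ × ℕ)) : Prop :=
  ∃ a b c d e f : ℕ, (Edge N T a b ∧ Edge N T b c ∧ Edge N T c d ∧ Edge N T d e ∧ Edge N T e f ∧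
    Edge N T a f) ∧
    (((a, c) ∈ T ∧ (c, e) ∈ T ∧ (a, e) ∈ T ∧
      T' = (T \ {(a, c), (c, e), (a, e)}) ∪ {(b, d), (d, f), (b, f)}) ∨
    ((b, d) ∈ T ∧ (d, f) ∈ T ∧ (b, f) ∈ T ∧
      T' = (T \ {(b, d), (d, f), (b, f)}) ∪ {(a, c), (c, e), (a, e)}))

/-- The graph `H_N`: vertices are the colorful triangulations of the `N`-gon, two of them adjacent
when one is obtained from the other by a twist. -/
def H (N : ℕ) : SimpleGraph {T : Finset (ℕ × ℕ) // Colorful N T} :=
  SimpleGraph.fromRel fun T T' => Twist N T.1 T'.1

/-! ### Structure of triangulations -/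

theorem exists_apex {N : ℕ} {T : Finset (ℕ × ℕ)} (hT : IsTriangulation N T) {a b : ℕ}
    (he : Edge N T a b) (hab : a + 2 ≤ b) :
    ∃ k, a < k ∧ k < b ∧ Edge N T a k ∧ Edge N T k b := by
  classical
  obtain ⟨h1, h2, h3, h4⟩ := he
  -- largest k in (a,b) joined to a
  let S := (Finset.Ioo a b).filter (fun k => Edge N T a k)
  have hS : S.Nonempty := by
    refine ⟨a + 1, Finset.mem_filter.2 ⟨Finset.mem_Ioo.2 ⟨by omega, by omega⟩, ?_⟩⟩
    exact ⟨h1, by omega, by omega, Or.inl rfl⟩
  obtain ⟨k, hkS, hmax⟩ := S.exists_max_image id hS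
  rw [Finset.mem_filter, Finset.mem_Ioo] at hkS
  obtain ⟨⟨hak, hkb⟩, hEk⟩ := hkS
  refine ⟨k, hak, hkb, hEk, ?_⟩
  by_contra hne
  have hkb2 : k + 2 ≤ b := by
    by_contra hlt
    have : b = k + 1 := by omega
    exact hne ⟨by omega, hkb, h3, Or.inl this⟩
  have hnotin : (k, b) ∉ T := fun hin => hne ⟨by omega, hkb, h3, Or.inr (Or.inr hin)⟩
  have hdiag : IsDiag N (k, b) := by
    refine ⟨by simp only; omega, hkb2, h3, ?_⟩
    intro hcon
    have : k = 1 := congrArg Prod.fst hcon
    omega
  obtain ⟨⟨c, d⟩, hcd, hcross⟩ := hT.2.2 _ hdiag hnotin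
  have hcdD := hT.1 _ hcd
  obtain ⟨hc1, hc2, hc3, hc4⟩ := hcdD
  simp only at hc1 hc2 hc3
  have hcaseab : (a = 1 ∧ b = N) ∨ (a, b) ∈ T := by
    rcases h4 with h4 | h4 | h4
    · omega
    · exact Or.inl h4
    · exact Or.inr h4
  rcases hcross with ⟨x1, x2, x3⟩ | ⟨x1, x2, x3⟩
  · -- k < c < b < d
    simp only at x1 x2 x3
    rcases hcaseab with ⟨_, hb⟩ | hab'
    · omega
    · exact hT.2.1 _ hab' _ hcd (Or.inl ⟨by simp only; omega, x2, x3⟩)
  · -- c < k < d < b
    simp only at x1 x2 x3
    rcases lt_trichotomy c a with hca | hca | hca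
    · rcases hcaseab with ⟨ha, _⟩ | hab'
      · omega
      · exact hT.2.1 _ hab' _ hcd (Or.inr ⟨hca, by simp only; omega, x3⟩)
    · subst hca
      have hd : d ∈ S := Finset.mem_filter.2 ⟨Finset.mem_Ioo.2 ⟨by omega, x3⟩,
        ⟨h1, by omega, hc3, Or.inr (Or.inr hcd)⟩⟩
      have := hmax d hd
      simp only [id] at this
      omega
    · -- a < c < k < d
      have hak' : (a, k) ∈ T := by
        obtain ⟨_, _, _, h | h | h⟩ := hEk
        · omega
        · omega
        · exact h
      exact hT.2.1 _ hak' _ hcd (Or.inl ⟨hca, x1, x2⟩)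

/-! ### Enumeration -/

/-- codes of the colorful triangulations of the polygon with vertices `a, a+1, …, b` -/
def gen : ℕ → ℕ → ℕ → List ℕ
  | 0, _, _ => [0]
  | n + 1, a, b =>
    if b ≤ a + 1 then [0] else
      (List.range' (a + 1) (b - a - 1)).flatMap fun k =>
        if a % 3 ≠ k % 3 ∧ k % 3 ≠ b % 3 ∧ a % 3 ≠ b % 3 then
          (gen n a k).flatMap fun x => (gen n k b).map fun y =>
            (if a + 1 < k then 2 ^ (16 * a + k) else 0) |||
              ((if k + 1 < b then 2 ^ (16 * k + b) else 0) ||| (x ||| y))
        else []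

theorem testBit_code (a k c d : ℕ) (hk : k < 16) (hd : d < 16) :
    (2 ^ (16 * a + k)).testBit (16 * c + d) = true ↔ (c, d) = (a, k) := by
  rw [Nat.testBit_two_pow]
  simp only [decide_eq_true_eq, Prod.mk.injEq]
  omega

theorem gen_complete {N : ℕ} (hN : N < 16) {T : Finset (ℕ × ℕ)} (hT : Colorful N T) :
    ∀ n a b : ℕ, b - a ≤ n → Edge N T a b → ∃ m ∈ gen n a b, ∀ c d : ℕ, d < 16 →
      (m.testBit (16 * c + d) = true ↔ (c, d) ∈ T ∧ a ≤ c ∧ d ≤ b ∧ (c, d) ≠ (a, b)) := by
  intro n
  induction n with
  | zero =>
    intro a b hab he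
    exact absurd he.2.1 (by omega)
  | succ n ih =>
    intro a b hab he
    obtain ⟨h1, h2, h3, h4⟩ := he
    by_cases hb : b ≤ a + 1
    · refine ⟨0, by simp [gen, hb], ?_⟩
      intro c d _
      simp only [Nat.zero_testBit, Bool.false_eq_true, false_iff]
      rintro ⟨hcd, hac, hdb, _⟩
      have := (hT.1.1 _ hcd).2.1
      simp only at this
      omega
    · obtain ⟨k, hak, hkb, hEak, hEkb⟩ := exists_apex hT.1 ⟨h1, h2, h3, h4⟩ (by omega)
      obtain ⟨m1, hm1, hm1'⟩ := ih a k (by omega) hEak
      obtain ⟨m2, hm2, hm2'⟩ := ih k b (by omega) hEkb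
      have hcol := hT.2 a k b ⟨hEak, hEkb, ⟨h1, h2, h3, h4⟩⟩
      refine ⟨(if a + 1 < k then 2 ^ (16 * a + k) else 0) |||
              ((if k + 1 < b then 2 ^ (16 * k + b) else 0) ||| (m1 ||| m2)), ?_, ?_⟩
      · simp only [gen, if_neg hb, List.mem_flatMap, List.mem_range']
        refine ⟨k, ⟨k - (a + 1), by omega, by omega⟩, ?_⟩
        rw [if_pos hcol]
        simp only [List.mem_flatMap, List.mem_map]
        exact ⟨m1, hm1, m2, hm2, rfl⟩
      · intro c d hd
        have hakT : a + 1 < k → (a, k) ∈ T := by
          intro h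
          obtain ⟨_, _, _, h' | h' | h'⟩ := hEak
          · omega
          · omega
          · exact h'
        have hkbT : k + 1 < b → (k, b) ∈ T := by
          intro h
          obtain ⟨_, _, _, h' | h' | h'⟩ := hEkb
          · omega
          · omega
          · exact h'
        have e1 : ((if a + 1 < k then 2 ^ (16 * a + k) else 0).testBit (16 * c + d) = true) ↔
            (a + 1 < k ∧ (c, d) = (a, k)) := by
          split_ifs with h
          · rw [testBit_code a k c d (by omega) hd]
            exact ⟨fun x => ⟨h, x⟩, fun x => x.2⟩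
          · simp [h]
        have e2 : ((if k + 1 < b then 2 ^ (16 * k + b) else 0).testBit (16 * c + d) = true) ↔
            (k + 1 < b ∧ (c, d) = (k, b)) := by
          split_ifs with h
          · rw [testBit_code k b c d (by omega) hd]
            exact ⟨fun x => ⟨h, x⟩, fun x => x.2⟩
          · simp [h]
        rw [Nat.testBit_or, Nat.testBit_or, Nat.testBit_or, Bool.or_eq_true, Bool.or_eq_true,
          Bool.or_eq_true, e1, e2, hm1' c d hd, hm2' c d hd]
        constructor
        · rintro (⟨g1, g2⟩ | ⟨g1, g2⟩ | ⟨g1, g2, g3, g4⟩ | ⟨g1, g2, g3, g4⟩)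
          · rw [g2]
            simp only [Prod.mk.injEq] at g2
            refine ⟨hakT g1, by omega, by omega, ?_⟩
            simp only [ne_eq, Prod.mk.injEq]
            omega
          · rw [g2]
            simp only [Prod.mk.injEq] at g2
            refine ⟨hkbT g1, by omega, by omega, ?_⟩
            simp only [ne_eq, Prod.mk.injEq]
            omega
          · refine ⟨g1, g2, by omega, ?_⟩
            simp only [ne_eq, Prod.mk.injEq]
            omega
          · refine ⟨g1, by omega, g3, ?_⟩
            simp only [ne_eq, Prod.mk.injEq]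
            omega
        · rintro ⟨g1, g2, g3, g4⟩
          have gd := (hT.1.1 _ g1).2.1
          simp only at gd
          simp only [ne_eq, Prod.mk.injEq] at g4
          by_cases hdk : d ≤ k
          · by_cases hx : (c, d) = (a, k)
            · left
              have hx' := hx
              simp only [Prod.mk.injEq] at hx'
              exact ⟨by omega, hx⟩
            · right; right; left
              exact ⟨g1, g2, hdk, hx⟩
          · by_cases hck : k ≤ c
            · by_cases hx : (c, d) = (k, b)
              · right; left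
                have hx' := hx
                simp only [Prod.mk.injEq] at hx'
                exact ⟨by omega, hx⟩
              · right; right; right
                exact ⟨g1, hck, g3, hx⟩
            · exfalso
              by_cases hac : a = c
              · have hdb : d < b := by omega
                exact hT.1.2.1 _ g1 _ (hkbT (by omega)) (Or.inl ⟨by simp only; omega,
                  by simp only; omega, hdb⟩)
              · exact hT.1.2.1 _ (hakT (by omega)) _ g1 (Or.inl ⟨by simp only; omega,
                  by simp only; omega, by simp only; omega⟩)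

/-- the set of pairs coded by `m` -/
def toSet (m : ℕ) : Finset (ℕ × ℕ) :=
  (Finset.range 16 ×ˢ Finset.range 16).filter fun p => m.testBit (16 * p.1 + p.2) = true

theorem mem_toSet (m c d : ℕ) :
    (c, d) ∈ toSet m ↔ (c < 16 ∧ d < 16) ∧ m.testBit (16 * c + d) = true := by
  simp [toSet]

/-- codes of the 140 colorful triangulations of the 14-gon, in breadth-first order -/
def table : List ℕ := [
  102844034862507296542631886130721218876043382132016149640511488,
  102844034862507296542631886129423144815848768134067681489321984,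
  102844034862506931167570914819772399184992345360125124059594752,
  784637717517070135732883334217224650039001016288944848896,
  102844034862507296542631801058831415200202917285391145586130944,
  102844034862506931167570914818372913076779473370344889841614848,
  784637717517070135732882036143164455425003067820793659392,
  102844034862506931167570914818474326207995265989085975577886720,
  102844034838561688342935197981452186979146713399503218750783488,
  784637716923335443928619615724591989957126861332175912960,
  784637717151697513905579042591908606718187066700939657216,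
  102844034862507296542631801058831415200212362009351953361928192,
  102844034862507296542631798400395705266262298594838300485746688,
  784637717517070135647811444413548809574154391284890468352,
  102844034838561688342935197981431904723901869868426219357732864,
  102844034862506931167570914818393195331646523043163893513322496,
  784637716923335443928617404942099631021202426969423609856,
  784637717151697513905577075198331491601443028576747651072,
  102844034838561688341541401406625158860531837236647882081697792,
  784637716923335443928617506355230846813821168055159881728,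
  102844034862506931167222468333101865516934782399932901045567488,
  5986310711037217221434108310039899640756554114269184,
  102844034838561688342935219249079842234693787284082282887380992,
  102844034832575423306611740500570882836606586209614926512128000,
  784637716923335443928618317660280573154771096741050056704,
  784637716969007021659358783423271694954598646432322289664,
  784637717151697513905577744527597189915831302109813800960,
  5986310711037217223381219632287966711975674634567680,
  102844034862507296542631798400395705266277646276902695297089536,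
  784637717517070135647811444413548819018878352092666265600,
  102844034862507296542631798400395705266263479177452162237071360,
  784637717517070135645153008703614868955463838439790084096,
  102844034838561688342935219249079837282555836257299731729874944,
  102844034832575423306611740500550600581314519013709230834712576,
  102844034838561688342935197981452186978768919541245223029440512,
  102844034862507296542631798400395705266579882343490103242391552,
  784637716923335443928617425224354498070875245973095317504,
  784637716969007021659356674052827354276666043835636776960,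
  784637717151697513905577095480586358651115847580419358720,
  5986310711037217221413826055172849967937550442561536,
  102844034838561688341541401406625158860607395091384258053275648,
  102844034832575377635034023053825118872854958924627386038747136,
  102844034838561688341192954921252698169471353647494807549378560,
  784637716923335443928617668613269774947125425457437605888,
  784637716923335095482132133894539786330232014980627562496,
  102844034862507296542631801058831415200514598075939361307230208,
  5986310708249645339245445576415322961246377472425984,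
  102844034832575423306611775060478495941265165467435897000034304,
  784637716969007021646064414377233109820965620932957175808,
  102844034832575423306611743159006592770541301942064184576966656,
  5986310706855827496790762202631166835120367185952768,
  784637716969007021659357485358960278152242881841196433408,
  102844034832575423306611860132368295283937698893921548153389056,
  784637717151694726315085714872531121716284207597705756672,
  5986310711037217222083155320871164356211083508711424,
  102844034838561688342935304320969641577366320710567934040735744,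
  102844034862507296542631798400395705266268201615992282319159296,
  784637717517070135645153008703614884303145902834601426944,
  102844034862507296542631801058831414426491573314645084304572416,
  784637717517070135645153008703614870136046452301541408768,
  102844034838561688342935219249079837127814511893212262102466560,
  102844034832575423306611775060478490989127214440653345842528256,
  102844034832575423306611743159006592151146264749268506119241728,
  102844034832575423306611740500570882836181568686528234506420224,
  102844034838561688342935197981452186978844477332931204203151360,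
  784637717517070135645153008703615186539212490242546728960,
  784637716969007021659356836311949479944597210557583982592,
  102844034832575423306611860131070221223743084895973080002199552,
  102844034838561688342935304319671567517171706712619465889546240,
  102844034832575377635034023053825118872969476302847436444925952,
  102844034838561688341192954921252698169546911502231183520956416,
  102844034832575377635034023053825118872856139507241247790071808,
  102844034832575423306611753792992817552559956396412486185123840,
  102844034832575423306611743159006592770116284355927097773391872,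
  102844034832575377635034023053825118873271712369419450992558080,
  784637716969007021648722850087167044536698070191022014464,
  784637717517070135647811444413549121254944939500611567616,
  45671926201150644099282986701144599991585079296,
  102844034832575423306611753792992817552976709841204551138934784,
  102844034838561688341192954921252698169849147568803198068588544,
  102844034838561688341541401406625158860909631157956272600907776,
  5986310706507381011418301511570683245967292653633536,
  102844034862507296542631798400375423011401151943173278647451648,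
  784637717517070135645153008703614874858484992421623496704,
  102844034862507296542631801058831414581232897678732553931980800,
  784637717517070135647811444412775098230183645223608909824,
  102844034838561688342935197981452186978764197102705102947352576,
  102844034832575423306611775060478490834385890076565876215119872,
  102844034832575423306611753792830558430473248556182991853322240,
  102844034838561688341192954921252691360801137613956831632162816,
  102844034832575423306611743159006591996404940385181036491833344,
  102844034832575423306611740500570882836191013347438647484350464,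
  102844034838561688341541401406625152670832821392382359569956864,
  102844034838561688342935219249079842234391551217510268339748864,
  102844034832575423306611740500570882836304350143042911964495872,
  102844034832575423306611775060478495940887371546127506480824320,
  102844034838561688342935219249079842234315993362773892368171008,
  102844034832575377635034023053825118872893919015564613654151168,
  102844034832575423306611753792992817552674473774632536591302656,
  102844034832575423306611743159006592770239065875492170029334528,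
  102844034832575423306611753792992817552561136979026347936448512,
  102844034832575423306611743159006592770125729079887905549189120,
  102844034832575423306611740500570882836175665665374252673007616,
  784637717517070135645152988421360007808812173417951789056,
  784637717517070135647811444412929839554547732693236318208,
  102844034838561688342935197981452186978763016520091241196027904,
  102844034862506931167570914819772399184690109293535791939584000,
  102844034832575423306611740500570882836176846247988114424332288,
  102844034832575423306611753792992817552598916487349713800527872,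
  102844034832575377635034023053561447702749993092566125640155136,
  102844034838561688341192954921252691206059813249869362004754432,
  102844034838561688341541401406523740777555887764638063130574848,
  102844034838561688341192952262816982045845886212126972997271552,
  102844034838561688341541401406625153908771680383379148866846720,
  102844034832575423306611775060478495940962929400863882452402176,
  102844034832575423306611740500570882836228792855760089173721088,
  102844034832575377635034023053662860833965785711307211376427008,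
  102844034832575423306611743159006592770163508588209347238559744,
  102844034838561688341192954921252691979780601944576231062110208,
  102844034862506931167570914819772399184688928710921930188259328,
  102844034862507296542631886130721218875741146065426817520500736,
  784637716923335443928619615724591687721060272000055902208,
  102844034832575377635034023053581729957617042765385129311862784,
  102844034838561688341541401406544023032422937437457066802282496,
  102844034838561688341192954921252693217711196794226074334527488,
  102844034832575377634685576568290400142905302122154136844107776,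
  102844034862507296542631886130721218875739965482812955769176064,
  784637716923335443928619615724591686540477658138304577536,
  784637717517070135732883334217224347802934426956824838144,
  784637716969007021659358783423271392718532057100202278912,
  784637717517070135732883334217224346622351813095073513472,
  784637716969007021659358783423271391537949443238450954240,
  784637717151697513905579042591908304482120477368819646464,
  102844034832575423306611860132368295283635462827332216033378304,
  784637717151697513905579042591908303301537863507068321792,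
  102844034832575423306611860132368295283634282244718354282053632,
  5986310711037217223381219631985730645386342514556928,
  102844034838561688342935304320969641577064084643978601920724992,
  5986310711037217223381219631984550062772480763232256,
  102844034838561688342935304320969641577062904061364740169400320]

/-- for the `(i+1)`-st entry of the table: an earlier entry, a hexagon and a direction of a twist
leading from the earlier entry to it -/
def cert : List (ℕ × List ℕ × Bool) := [
  (0, [3, 4, 5, 6, 7, 14], true), (0, [6, 7, 8, 9, 10, 14], true),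
  (0, [9, 10, 11, 12, 13, 14], true), (1, [1, 3, 5, 7, 9, 14], true),
  (1, [3, 7, 8, 9, 10, 14], true), (1, [9, 10, 11, 12, 13, 14], true),
  (2, [3, 4, 5, 6, 10, 14], true), (2, [4, 6, 8, 10, 12, 14], true),
  (2, [6, 10, 11, 12, 13, 14], true), (3, [6, 7, 8, 9, 13, 14], true),
  (4, [1, 2, 3, 4, 5, 9], false), (4, [1, 5, 6, 7, 8, 9], true),
  (4, [9, 10, 11, 12, 13, 14], true), (5, [1, 3, 8, 10, 12, 14], true),
  (5, [3, 4, 5, 6, 7, 8], false), (5, [3, 10, 11, 12, 13, 14], true),
  (6, [3, 7, 8, 9, 13, 14], true), (7, [1, 3, 5, 10, 12, 14], true),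
  (7, [3, 10, 11, 12, 13, 14], true), (7, [5, 6, 7, 8, 9, 10], true),
  (8, [3, 4, 8, 12, 13, 14], true), (8, [4, 5, 6, 7, 8, 12], false),
  (8, [4, 8, 9, 10, 11, 12], true), (9, [3, 4, 5, 6, 13, 14], true),
  (9, [6, 7, 8, 9, 10, 11], false), (10, [3, 4, 5, 6, 13, 14], true),
  (10, [8, 9, 10, 11, 12, 13], true), (11, [4, 5, 6, 7, 8, 9], true),
  (11, [9, 10, 11, 12, 13, 14], true), (12, [1, 2, 3, 4, 5, 6], false),
  (12, [9, 10, 11, 12, 13, 14], true), (14, [1, 2, 3, 7, 8, 12], false),
  (14, [1, 8, 9, 10, 11, 12], true), (14, [3, 4, 5, 6, 7, 8], false),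
  (15, [3, 4, 8, 9, 10, 14], false), (15, [3, 10, 11, 12, 13, 14], true),
  (16, [3, 7, 8, 9, 10, 11], false), (17, [3, 4, 5, 6, 7, 8], false),
  (17, [8, 9, 10, 11, 12, 13], true), (18, [1, 2, 3, 4, 5, 12], false),
  (18, [1, 5, 6, 10, 11, 12], true), (18, [5, 6, 7, 8, 9, 10], true),
  (19, [3, 4, 5, 6, 10, 11], false), (19, [5, 6, 7, 8, 9, 10], true),
  (20, [3, 4, 5, 9, 10, 14], false), (22, [3, 4, 5, 12, 13, 14], true),
  (22, [7, 8, 9, 10, 11, 12], true), (23, [3, 4, 11, 12, 13, 14], true),
  (23, [4, 5, 6, 7, 8, 9], false), (24, [5, 6, 10, 11, 12, 13], true),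
  (24, [6, 7, 8, 9, 10, 11], false), (25, [6, 7, 11, 12, 13, 14], false),
  (26, [5, 6, 7, 8, 9, 13], true), (26, [8, 9, 10, 11, 12, 13], true),
  (27, [6, 7, 8, 12, 13, 14], false), (28, [1, 2, 3, 4, 8, 9], true),
  (28, [9, 10, 11, 12, 13, 14], true), (30, [1, 2, 6, 7, 8, 9], false),
  (30, [9, 10, 11, 12, 13, 14], true), (32, [2, 3, 4, 5, 6, 7], true),
  (32, [7, 8, 9, 10, 11, 12], true), (33, [1, 2, 3, 7, 8, 9], false),
  (33, [3, 4, 5, 6, 7, 8], false), (34, [1, 2, 3, 4, 8, 12], false),
  (35, [9, 10, 11, 12, 13, 14], true), (37, [3, 4, 5, 6, 7, 11], false),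
  (37, [3, 7, 11, 12, 13, 14], false), (39, [3, 7, 8, 12, 13, 14], false),
  (40, [4, 5, 6, 10, 11, 12], true), (40, [5, 6, 7, 8, 9, 10], true),
  (41, [1, 2, 3, 4, 5, 6], false), (41, [6, 7, 8, 9, 10, 11], false),
  (42, [1, 5, 9, 10, 11, 12], true), (43, [3, 4, 11, 12, 13, 14], false),
  (44, [3, 4, 5, 9, 10, 11], false), (45, [9, 10, 11, 12, 13, 14], true),
  (46, [7, 8, 9, 10, 11, 12], true), (47, [4, 5, 6, 7, 11, 12], true),
  (49, [4, 5, 9, 10, 11, 12], false), (50, [3, 4, 5, 12, 13, 14], false),
  (50, [5, 6, 7, 8, 9, 10], true), (56, [3, 4, 5, 6, 7, 8], true),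
  (56, [9, 10, 11, 12, 13, 14], true), (58, [2, 3, 4, 5, 6, 7], false),
  (58, [9, 10, 11, 12, 13, 14], true), (60, [1, 2, 6, 7, 8, 12], true),
  (60, [7, 8, 9, 10, 11, 12], true), (61, [1, 2, 3, 7, 11, 12], true),
  (62, [1, 2, 9, 10, 11, 12], false), (62, [2, 3, 4, 5, 6, 7], true),
  (63, [1, 2, 3, 4, 8, 9], false), (64, [2, 4, 6, 8, 10, 12], true),
  (64, [4, 5, 6, 7, 8, 12], false), (64, [4, 8, 9, 10, 11, 12], true),
  (67, [1, 3, 5, 7, 12, 14], true), (68, [1, 3, 5, 7, 12, 14], true),
  (69, [1, 2, 3, 4, 11, 12], true), (69, [6, 7, 8, 9, 10, 11], false),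
  (70, [4, 5, 9, 10, 11, 12], true), (71, [6, 7, 8, 9, 10, 11], false),
  (73, [1, 2, 3, 4, 5, 9], false), (73, [1, 5, 6, 7, 8, 9], true),
  (82, [9, 10, 11, 12, 13, 14], true), (84, [9, 10, 11, 12, 13, 14], true),
  (86, [1, 2, 3, 4, 5, 6], true), (86, [1, 6, 8, 10, 12, 14], false),
  (86, [1, 8, 9, 10, 11, 12], true), (88, [3, 4, 5, 6, 7, 11], false),
  (88, [3, 7, 8, 9, 10, 11], true), (89, [2, 3, 4, 5, 6, 7], true),
  (89, [2, 3, 7, 8, 9, 10], false), (91, [1, 2, 9, 10, 11, 12], false),
  (92, [2, 3, 4, 5, 6, 10], false), (93, [7, 8, 9, 10, 11, 12], true),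
  (94, [1, 2, 3, 4, 11, 12], true), (97, [3, 4, 5, 6, 10, 11], true),
  (99, [1, 2, 3, 4, 11, 12], true), (101, [1, 2, 9, 10, 11, 12], false),
  (105, [1, 6, 8, 10, 12, 14], false), (106, [6, 7, 8, 9, 10, 14], false),
  (106, [6, 10, 11, 12, 13, 14], true), (109, [3, 4, 5, 6, 7, 8], false),
  (111, [3, 4, 5, 6, 7, 8], false), (113, [5, 6, 7, 8, 9, 10], true),
  (116, [5, 6, 7, 8, 9, 10], true), (119, [6, 7, 8, 9, 10, 14], false),
  (119, [6, 10, 11, 12, 13, 14], true), (120, [9, 10, 11, 12, 13, 14], true),
  (121, [6, 7, 8, 9, 10, 11], false), (126, [9, 10, 11, 12, 13, 14], true),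
  (127, [6, 7, 8, 9, 10, 11], false), (128, [6, 7, 8, 9, 13, 14], true),
  (129, [6, 7, 11, 12, 13, 14], false), (130, [6, 7, 8, 9, 13, 14], true),
  (131, [6, 7, 11, 12, 13, 14], false), (132, [8, 9, 10, 11, 12, 13], true),
  (133, [7, 8, 9, 10, 11, 12], false), (134, [8, 9, 10, 11, 12, 13], true),
  (135, [7, 8, 9, 10, 11, 12], false)]

theorem gen_sub_table : ∀ m ∈ gen 13 1 14, m ∈ table := by decide +kernel

/-- Every colorful triangulation of the 14-gon is in the table. -/
theorem mem_table {T : Finset (ℕ × ℕ)} (hT : Colorful 14 T) : ∃ m ∈ table, T = toSet m := by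
  obtain ⟨m, hm, hm'⟩ := gen_complete (N := 14) (by norm_num) hT 13 1 14 (by norm_num)
    ⟨le_rfl, by norm_num, le_rfl, Or.inr (Or.inl ⟨rfl, rfl⟩)⟩
  refine ⟨m, gen_sub_table m hm, ?_⟩
  ext ⟨c, d⟩
  rw [mem_toSet]
  constructor
  · intro h
    obtain ⟨h1, h2, h3, h4⟩ := hT.1.1 _ h
    simp only at h1 h2 h3
    exact ⟨⟨by omega, by omega⟩, (hm' c d (by omega)).2 ⟨h, h1, h3, h4⟩⟩
  · rintro ⟨⟨_, h2⟩, h⟩
    exact ((hm' c d h2).1 h).1

/-- the diagonals of the 14-gon -/
def diags : List (ℕ × ℕ) :=
  ((List.range 15).flatMap fun a => (List.range 15).map fun b => (a, b)).filter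
    fun p => decide (IsDiag 14 p)

/-- the diagonals coded by `m` -/
def dl (m : ℕ) : List (ℕ × ℕ) := diags.filter fun p => m.testBit (16 * p.1 + p.2)

/-- the edges of the coded triangulation -/
def edges (m : ℕ) : List (ℕ × ℕ) :=
  (1, 14) :: ((List.range 13).map fun a => (a + 1, a + 2)) ++ dl m

/-- the code of a list of pairs -/
def code (l : List (ℕ × ℕ)) : ℕ := l.foldr (fun p acc => 2 ^ (16 * p.1 + p.2) ||| acc) 0

/-- decidable form of colorfulness for coded sets -/
def Good (m : ℕ) : Prop :=
  m = code (dl m) ∧ (∀ p ∈ dl m, ∀ q ∈ dl m, ¬ Cross p q) ∧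
  (∀ p ∈ diags, m.testBit (16 * p.1 + p.2) = true ∨ ∃ q ∈ dl m, Cross p q) ∧
  (∀ p ∈ edges m, ∀ q ∈ edges m, p.2 = q.1 → (p.1, q.2) ∈ edges m →
    p.1 % 3 ≠ p.2 % 3 ∧ p.2 % 3 ≠ q.2 % 3 ∧ p.1 % 3 ≠ q.2 % 3)

instance (m : ℕ) : Decidable (Good m) := by unfold Good; infer_instance

theorem table_good : ∀ m ∈ table, Good m := by decide +kernel

theorem mem_diags (p : ℕ × ℕ) : p ∈ diags ↔ IsDiag 14 p := by
  rw [diags, List.mem_filter]
  constructor
  · rintro ⟨_, h⟩
    exact of_decide_eq_true h
  · intro h
    refine ⟨?_, decide_eq_true h⟩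
    obtain ⟨h1, h2, h3, _⟩ := h
    rw [List.mem_flatMap]
    refine ⟨p.1, List.mem_range.2 (by omega), ?_⟩
    rw [List.mem_map]
    exact ⟨p.2, List.mem_range.2 (by omega), rfl⟩

theorem mem_dl (m : ℕ) (p : ℕ × ℕ) :
    p ∈ dl m ↔ IsDiag 14 p ∧ m.testBit (16 * p.1 + p.2) = true := by
  rw [dl, List.mem_filter, mem_diags]

theorem testBit_codeL (l : List (ℕ × ℕ)) (hl : ∀ p ∈ l, p.2 < 16) (c d : ℕ) (hd : d < 16) :
    (code l).testBit (16 * c + d) = true ↔ (c, d) ∈ l := by
  induction l with
  | nil => simp [code]
  | cons q l ih =>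
    have e : code (q :: l) = 2 ^ (16 * q.1 + q.2) ||| code l := rfl
    rw [e, Nat.testBit_or, Bool.or_eq_true, testBit_code q.1 q.2 c d (hl q (by simp)) hd,
      ih (fun p hp => hl p (by simp [hp])), List.mem_cons]

theorem mem_toSet_iff {m : ℕ} (h : Good m) (p : ℕ × ℕ) : p ∈ toSet m ↔ p ∈ dl m := by
  obtain ⟨c, d⟩ := p
  rw [mem_toSet]
  have hlt : ∀ p ∈ dl m, p.2 < 16 := fun p hp => by
    have := ((mem_dl m p).1 hp).1.2.2.1
    omega
  constructor
  · rintro ⟨⟨_, h2⟩, h3⟩
    rw [h.1] at h3
    exact (testBit_codeL _ hlt c d h2).1 h3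
  · intro hp
    have := (mem_dl m _).1 hp
    have h1 := this.1.2.1
    have h2 := this.1.2.2.1
    simp only at h1 h2
    exact ⟨⟨by omega, by omega⟩, this.2⟩

theorem edge_mem {m : ℕ} (h : Good m) {a b : ℕ} (he : Edge 14 (toSet m) a b) :
    (a, b) ∈ edges m := by
  obtain ⟨h1, h2, h3, h4 | h4 | h4⟩ := he
  · rw [edges, List.mem_append]
    left
    rw [List.mem_cons]
    right
    rw [List.mem_map]
    refine ⟨a - 1, List.mem_range.2 (by omega), ?_⟩
    rw [Prod.mk.injEq]
    omega
  · rw [edges, List.mem_append]
    left
    rw [List.mem_cons]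
    left
    rw [h4.1, h4.2]
  · rw [edges, List.mem_append]
    right
    exact (mem_toSet_iff h _).1 h4

theorem good_colorful {m : ℕ} (h : Good m) : Colorful 14 (toSet m) := by
  have hm := mem_toSet_iff h
  obtain ⟨g0, g1, g2, g3⟩ := h
  refine ⟨⟨?_, ?_, ?_⟩, ?_⟩
  · intro p hp
    exact ((mem_dl m p).1 ((hm p).1 hp)).1
  · intro p hp q hq
    exact g1 p ((hm p).1 hp) q ((hm q).1 hq)
  · intro p hd hn
    rcases g2 p ((mem_diags p).2 hd) with h | ⟨q, hq, hc⟩
    · exact absurd ((hm p).2 ((mem_dl m p).2 ⟨hd, h⟩)) hn
    · exact ⟨q, (hm q).2 hq, hc⟩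
  · rintro a b c ⟨e1, e2, e3⟩
    have hg : Good m := ⟨g0, g1, g2, g3⟩
    exact g3 (a, b) (edge_mem hg e1) (b, c) (edge_mem hg e2) rfl (edge_mem hg e3)

/-- `a < b` joined by an edge of the coded triangulation -/
def EdgeB (m a b : ℕ) : Prop :=
  1 ≤ a ∧ a < b ∧ b ≤ 14 ∧ (b = a + 1 ∨ (a = 1 ∧ b = 14) ∨ m.testBit (16 * a + b) = true)

instance (m a b : ℕ) : Decidable (EdgeB m a b) := by unfold EdgeB; infer_instance

theorem EdgeB.edge {m a b : ℕ} (h : EdgeB m a b) : Edge 14 (toSet m) a b := by
  obtain ⟨h1, h2, h3, h4 | h4 | h4⟩ := h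
  · exact ⟨h1, h2, h3, Or.inl h4⟩
  · exact ⟨h1, h2, h3, Or.inr (Or.inl h4)⟩
  · exact ⟨h1, h2, h3, Or.inr (Or.inr ((mem_toSet _ _ _).2 ⟨⟨by omega, by omega⟩, h4⟩))⟩

theorem toSet_twist (m m' a1 b1 a2 b2 a3 b3 c1 d1 c2 d2 c3 d3 : ℕ)
    (hb : b1 < 16 ∧ b2 < 16 ∧ b3 < 16 ∧ d1 < 16 ∧ d2 < 16 ∧ d3 < 16)
    (hc : c1 < 16 ∧ c2 < 16 ∧ c3 < 16)
    (h1 : m.testBit (16 * a1 + b1) = true) (h2 : m.testBit (16 * a2 + b2) = true)
    (h3 : m.testBit (16 * a3 + b3) = true)
    (h : m' = (m ^^^ (2 ^ (16 * a1 + b1) ||| (2 ^ (16 * a2 + b2) ||| 2 ^ (16 * a3 + b3)))) |||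
      (2 ^ (16 * c1 + d1) ||| (2 ^ (16 * c2 + d2) ||| 2 ^ (16 * c3 + d3)))) :
    toSet m' = (toSet m \ {(a1, b1), (a2, b2), (a3, b3)}) ∪ {(c1, d1), (c2, d2), (c3, d3)} := by
  obtain ⟨b1', b2', b3', d1', d2', d3'⟩ := hb
  obtain ⟨c1', c2', c3'⟩ := hc
  ext ⟨c, d⟩
  rw [Finset.mem_union, Finset.mem_sdiff, mem_toSet, mem_toSet]
  simp only [Finset.mem_insert, Finset.mem_singleton]
  by_cases hcd : c < 16 ∧ d < 16
  · obtain ⟨hc, hd⟩ := hcd
    have t1 := testBit_code a1 b1 c d b1' hd
    have t2 := testBit_code a2 b2 c d b2' hd
    have t3 := testBit_code a3 b3 c d b3' hd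
    have t4 := testBit_code c1 d1 c d d1' hd
    have t5 := testBit_code c2 d2 c d d2' hd
    have t6 := testBit_code c3 d3 c d d3' hd
    have k1 : (c, d) = (a1, b1) → m.testBit (16 * c + d) = true := by
      intro e; simp only [Prod.mk.injEq] at e; rw [e.1, e.2]; exact h1
    have k2 : (c, d) = (a2, b2) → m.testBit (16 * c + d) = true := by
      intro e; simp only [Prod.mk.injEq] at e; rw [e.1, e.2]; exact h2
    have k3 : (c, d) = (a3, b3) → m.testBit (16 * c + d) = true := by
      intro e; simp only [Prod.mk.injEq] at e; rw [e.1, e.2]; exact h3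
    rw [h, Nat.testBit_or, Nat.testBit_xor, Nat.testBit_or, Nat.testBit_or, Nat.testBit_or,
      Nat.testBit_or]
    rw [← t1, ← t2, ← t3, ← t4, ← t5, ← t6]
    rw [← t1] at k1
    rw [← t2] at k2
    rw [← t3] at k3
    revert k1 k2 k3
    generalize m.testBit (16 * c + d) = x0
    generalize (2 ^ (16 * a1 + b1)).testBit (16 * c + d) = x1
    generalize (2 ^ (16 * a2 + b2)).testBit (16 * c + d) = x2
    generalize (2 ^ (16 * a3 + b3)).testBit (16 * c + d) = x3
    generalize (2 ^ (16 * c1 + d1)).testBit (16 * c + d) = x4
    generalize (2 ^ (16 * c2 + d2)).testBit (16 * c + d) = x5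
    generalize (2 ^ (16 * c3 + d3)).testBit (16 * c + d) = x6
    cases x0 <;> cases x1 <;> cases x2 <;> cases x3 <;> cases x4 <;> cases x5 <;> cases x6 <;>
      simp [hc, hd]
  · constructor
    · rintro ⟨h', _⟩; exact absurd h' hcd
    · rintro (⟨⟨h', _⟩, _⟩ | h')
      · exact absurd h' hcd
      · simp only [Prod.mk.injEq] at h'
        exfalso
        apply hcd
        omega

/-- one step of the certificate: `m'` is a twist of `m` at the hexagon `h` -/
def Step (m m' : ℕ) (h : List ℕ) (dir : Bool) : Prop :=
  (EdgeB m (h.getD 0 0) (h.getD 1 0) ∧ EdgeB m (h.getD 1 0) (h.getD 2 0) ∧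
    EdgeB m (h.getD 2 0) (h.getD 3 0) ∧ EdgeB m (h.getD 3 0) (h.getD 4 0) ∧
    EdgeB m (h.getD 4 0) (h.getD 5 0) ∧ EdgeB m (h.getD 0 0) (h.getD 5 0)) ∧
  if dir = false then
    (m.testBit (16 * h.getD 0 0 + h.getD 2 0) = true ∧
      m.testBit (16 * h.getD 2 0 + h.getD 4 0) = true ∧
      m.testBit (16 * h.getD 0 0 + h.getD 4 0) = true ∧
      m' = (m ^^^ (2 ^ (16 * h.getD 0 0 + h.getD 2 0) ||| (2 ^ (16 * h.getD 2 0 + h.getD 4 0) |||
        2 ^ (16 * h.getD 0 0 + h.getD 4 0)))) ||| (2 ^ (16 * h.getD 1 0 + h.getD 3 0) |||
        (2 ^ (16 * h.getD 3 0 + h.getD 5 0) ||| 2 ^ (16 * h.getD 1 0 + h.getD 5 0))))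
  else
    (m.testBit (16 * h.getD 1 0 + h.getD 3 0) = true ∧
      m.testBit (16 * h.getD 3 0 + h.getD 5 0) = true ∧
      m.testBit (16 * h.getD 1 0 + h.getD 5 0) = true ∧
      m' = (m ^^^ (2 ^ (16 * h.getD 1 0 + h.getD 3 0) ||| (2 ^ (16 * h.getD 3 0 + h.getD 5 0) |||
        2 ^ (16 * h.getD 1 0 + h.getD 5 0)))) ||| (2 ^ (16 * h.getD 0 0 + h.getD 2 0) |||
        (2 ^ (16 * h.getD 2 0 + h.getD 4 0) ||| 2 ^ (16 * h.getD 0 0 + h.getD 4 0))))

instance (s t : ℕ) (h : List ℕ) (dir : Bool) : Decidable (Step s t h dir) := by
  unfold Step; infer_instance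

theorem Step.twist {s t : ℕ} {h : List ℕ} {dir : Bool} (hs : Step s t h dir) :
    Twist 14 (toSet s) (toSet t) := by
  obtain ⟨⟨h1, h2, h3, h4, h5, h6⟩, h7⟩ := hs
  refine ⟨h.getD 0 0, h.getD 1 0, h.getD 2 0, h.getD 3 0, h.getD 4 0, h.getD 5 0,
    ⟨h1.edge, h2.edge, h3.edge, h4.edge, h5.edge, h6.edge⟩, ?_⟩
  have b1 := h1.2.1
  have b2 := h2.2.1
  have b3 := h3.2.1
  have b4 := h4.2.1
  have b5 := h5.2.1
  have b6 := h5.2.2.1
  cases dir with
  | false =>
    left
    rw [if_pos rfl] at h7
    obtain ⟨t1, t2, t3, t4⟩ := h7
    exact ⟨(mem_toSet _ _ _).2 ⟨⟨by omega, by omega⟩, t1⟩,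
      (mem_toSet _ _ _).2 ⟨⟨by omega, by omega⟩, t2⟩,
      (mem_toSet _ _ _).2 ⟨⟨by omega, by omega⟩, t3⟩,
      toSet_twist _ _ _ _ _ _ _ _ _ _ _ _ _ _ (by omega) (by omega) t1 t2 t3 t4⟩
  | true =>
    right
    rw [if_neg (by decide)] at h7
    obtain ⟨t1, t2, t3, t4⟩ := h7
    exact ⟨(mem_toSet _ _ _).2 ⟨⟨by omega, by omega⟩, t1⟩,
      (mem_toSet _ _ _).2 ⟨⟨by omega, by omega⟩, t2⟩,
      (mem_toSet _ _ _).2 ⟨⟨by omega, by omega⟩, t3⟩,
      toSet_twist _ _ _ _ _ _ _ _ _ _ _ _ _ _ (by omega) (by omega) t1 t2 t3 t4⟩

theorem cert_ok : ∀ i ∈ List.range 139, (cert.getD i (0, [], false)).1 ≤ i ∧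
    Step (table.getD (cert.getD i (0, [], false)).1 0) (table.getD (i + 1) 0)
      (cert.getD i (0, [], false)).2.1 (cert.getD i (0, [], false)).2.2 := by decide +kernel

theorem table_length : table.length = 140 := by decide +kernel

theorem colorful_entry (i : ℕ) (hi : i < 140) : Colorful 14 (toSet (table.getD i 0)) := by
  apply good_colorful
  apply table_good
  rw [List.getD_eq_getElem _ _ (by rw [table_length]; exact hi)]
  exact List.getElem_mem _

theorem reach (i : ℕ) (hi : i < 140) :
    (H 14).Reachable ⟨toSet (table.getD 0 0), colorful_entry 0 (by norm_num)⟩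
      ⟨toSet (table.getD i 0), colorful_entry i hi⟩ := by
  induction i using Nat.strong_induction_on with
  | _ i ih =>
    rcases Nat.eq_zero_or_pos i with h0 | h0
    · subst h0
      exact SimpleGraph.Reachable.refl _
    · obtain ⟨j, rfl⟩ : ∃ j, i = j + 1 := ⟨i - 1, by omega⟩
      obtain ⟨hle, hstep⟩ := cert_ok j (List.mem_range.2 (by omega))
      have hp : (cert.getD j (0, [], false)).1 < 140 := by omega
      refine (ih _ (by omega) hp).trans ?_
      by_cases heq : (⟨toSet (table.getD (cert.getD j (0, [], false)).1 0),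
          colorful_entry _ hp⟩ : {T : Finset (ℕ × ℕ) // Colorful 14 T})
          = ⟨toSet (table.getD (j + 1) 0), colorful_entry _ hi⟩
      · rw [heq]
      · apply SimpleGraph.Adj.reachable
        rw [H, SimpleGraph.fromRel_adj]
        exact ⟨heq, Or.inl hstep.twist⟩

theorem connected14 : (H 14).Connected := by
  have key : ∀ T : {T : Finset (ℕ × ℕ) // Colorful 14 T},
      (H 14).Reachable ⟨toSet (table.getD 0 0), colorful_entry 0 (by norm_num)⟩ T := by
    rintro ⟨T, hT⟩
    obtain ⟨m, hm, rfl⟩ := mem_table hT
    obtain ⟨i, hi, hmi⟩ := List.getElem_of_mem hm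
    rw [table_length] at hi
    have : m = table.getD i 0 := by
      rw [List.getD_eq_getElem _ _ (by rw [table_length]; exact hi), hmi]
    subst this
    exact reach i hi
  have : Nonempty {T : Finset (ℕ × ℕ) // Colorful 14 T} :=
    ⟨⟨_, colorful_entry 0 (by norm_num)⟩⟩
  exact SimpleGraph.Connected.mk fun u v => (key u).symm.trans (key v)

/-- **Negative answer to Q1.**  The graph `H_14` is connected, although `14 ≥ 8` and
`14 ≡ 2 (mod 3)`. -/
theorem result : (H 14).Connected ∧
    ¬ ∀ N : ℕ, 8 ≤ N → N % 3 = 2 → ¬ (H N).Connected :=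
  ⟨connected14, fun h => h 14 (by norm_num) (by norm_num) connected14⟩

end Pool.Agent.Results.MP_b57ad3_co.TwistConnected
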